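import Pool.Agent.P8H83.ZE.Stm

/-!
Project ZE, packages PRI, SML, CHI, IRR (helper53).
-/

set_option autoImplicit false

namespace Pool.Agent.P8H53.ZE

open Module Polynomial Pool.Agent.P8H83.ZL Pool.Agent.P8H83.ZE

theorem pri_proof : S_PRI := by
  intro p l hp hl hpl ho
  have := Fact.mk hp
  have := Fact.mk hl
  have hnd : ¬ p ∣ l := fun h => hpl ((Nat.prime_dvd_prime_iff_eq hp hl).1 h)
  refine ZMod.irreducible_of_dvd_cyclotomic_of_natDegree hnd dvd_rfl ?_
  rw [natDegree_cyclotomic, Nat.totient_prime hl, ← ho, ← orderOf_units]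
  simp

theorem sml_proof : S_SML := by
  intro p l hp hl hpl hirr V _ _ _ T hT hV v
  have := Fact.mk hp
  have := Fact.mk hl
  have h0 : T ^ l = 1 := LinearMap.ext fun v => by rw [hT v]; rfl
  have h1 : minpoly (ZMod p) T ∣ X ^ l - 1 := minpoly.dvd _ _ (by simp [h0])
  have hint : IsIntegral (ZMod p) T := Algebra.IsIntegral.isIntegral T
  have hμ0 : minpoly (ZMod p) T ≠ 0 := minpoly.ne_zero hint
  have h2 : (minpoly (ZMod p) T).natDegree < l - 1 := by
    refine lt_of_le_of_lt ?_ hV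
    have h := Polynomial.natDegree_le_of_dvd (LinearMap.minpoly_dvd_charpoly T)
      (LinearMap.charpoly_monic T).ne_zero
    rwa [LinearMap.charpoly_natDegree] at h
  have h4 : ¬ cyclotomic l (ZMod p) ∣ minpoly (ZMod p) T := by
    intro h
    have h5 := Polynomial.natDegree_le_of_dvd h hμ0
    rw [natDegree_cyclotomic, Nat.totient_prime hl] at h5
    omega
  have h5 : IsCoprime (minpoly (ZMod p) T) (cyclotomic l (ZMod p)) :=
    ((hirr.coprime_iff_not_dvd).2 h4).symm
  have h6 : minpoly (ZMod p) T ∣ X - 1 := by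
    refine h5.dvd_of_dvd_mul_left ?_
    rw [cyclotomic_prime_mul_X_sub_one]
    exact h1
  obtain ⟨Q, hQ⟩ := h6
  have h7 : aeval T (X - 1 : (ZMod p)[X]) = 0 := by
    rw [hQ, map_mul, minpoly.aeval, zero_mul]
  simp only [map_sub, aeval_X, map_one] at h7
  have h8 := congrArg (fun f : V →ₗ[ZMod p] V => f v) (sub_eq_zero.1 h7)
  simpa using h8

lemma const_of_root {p l : ℕ} (hp : p.Prime) (hl : l.Prime)
    (hirr : Irreducible (cyclotomic l (ZMod p))) {K : Type} [Field K] [CharP K p] {η : K}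
    (hη : IsPrimitiveRoot η l) (y : Fin l → ZMod p)
    (h : ∑ i : Fin l, η ^ (i : ℕ) * ZMod.castHom (dvd_refl p) K (y i) = 0) (i j : Fin l) :
    y i = y j := by
  have := Fact.mk hp
  have := Fact.mk hl
  let _ : Algebra (ZMod p) K := ZMod.algebra K p
  have halg : algebraMap (ZMod p) K = ZMod.castHom (dvd_refl p) K := Subsingleton.elim _ _
  set P : (ZMod p)[X] := ∑ i : Fin l, C (y i) * X ^ (i : ℕ) with hP
  have h1 : aeval η P = 0 := by
    rw [hP, map_sum, ← h]
    refine Finset.sum_congr rfl fun i _ => ?_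
    rw [map_mul, map_pow, aeval_C, aeval_X, halg, mul_comm]
  have hroot : aeval η (cyclotomic l (ZMod p)) = 0 := by
    have := hη.isRoot_cyclotomic hl.pos
    rw [IsRoot, ← map_cyclotomic l (algebraMap (ZMod p) K), eval_map_algebraMap] at this
    exact this
  have hmin : minpoly (ZMod p) η = cyclotomic l (ZMod p) :=
    (minpoly.eq_of_irreducible_of_monic hirr hroot (cyclotomic.monic l _)).symm
  obtain ⟨Q, hQ⟩ : cyclotomic l (ZMod p) ∣ P := hmin ▸ minpoly.dvd _ _ h1
  have hcoef : ∀ i : Fin l, P.coeff i = y i := by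
    intro i
    rw [hP, finsetSum_coeff]
    simp only [coeff_C_mul_X_pow, Fin.val_inj]
    simp
  have hdeg : P.natDegree ≤ l - 1 := by
    rw [hP]
    refine natDegree_sum_le_of_forall_le _ _ fun i _ => ?_
    refine (natDegree_C_mul_X_pow_le _ _).trans ?_
    omega
  have hQ0 : Q.natDegree = 0 := by
    by_cases hQz : Q = 0
    · rw [hQz, natDegree_zero]
    · rw [hQ, natDegree_mul (cyclotomic_ne_zero l _) hQz, natDegree_cyclotomic,
        Nat.totient_prime hl] at hdeg
      omega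
  obtain ⟨c, hc⟩ := natDegree_eq_zero.1 hQ0
  have hall : ∀ i : Fin l, y i = c := by
    intro i
    rw [← hcoef i, hQ, ← hc, coeff_mul_C, cyclotomic_prime, finsetSum_coeff]
    simp only [coeff_X_pow]
    rw [Finset.sum_ite_eq, if_pos (Finset.mem_range.2 i.2), one_mul]
  rw [hall i, hall j]

lemma epow {n : ℕ} {K : Type} [Field K] {η : K} (hη : η ^ (n + 1) = 1) (i j : Fin (n + 1)) :
    η ^ ((i + j : Fin (n + 1)) : ℕ) = η ^ (i : ℕ) * η ^ (j : ℕ) := by
  rw [Fin.val_add, ← pow_eq_pow_mod _ hη, pow_add]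

lemma epow_one {n : ℕ} {K : Type} [Field K] {η : K} (hη : η ^ (n + 1) = 1) (i : Fin (n + 1)) :
    η ^ ((i + 1 : Fin (n + 1)) : ℕ) = η ^ (i : ℕ) * η := by
  rw [epow hη, Fin.val_one', ← pow_eq_pow_mod _ hη, pow_one]

lemma lin_sum {l p : ℕ} (φ : (Fin l → ZMod p) →ₗ[ZMod p] ZMod p) (v : Fin l → ZMod p) :
    φ v = ∑ i, v i * φ (Pi.single i 1) := by
  conv_lhs => rw [LinearMap.pi_apply_eq_sum_univ φ v]
  refine Finset.sum_congr rfl fun i _ => ?_
  rw [smul_eq_mul]
  congr 2
  funext j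
  rw [Pi.single_apply]
  simp only [eq_comm]

theorem chi_proof : S_CHI := by
  intro p l hp hl hpl hirr K _ _ ζ hζ H hH
  have := Fact.mk hp
  obtain ⟨n, rfl⟩ : ∃ n, l = n + 1 := ⟨l - 1, by have := hl.pos; omega⟩
  have hmul : ∀ g h : WG.D (n + 1) p, (g * h : WG.D (n + 1) p).1.v = g.1.v + h.1.v := by
    intro g h
    funext i
    rw [Subgroup.coe_mul, WG.mul_v, WG.mem_D.1 g.2]
    rfl
  let S : AddSubgroup (Fin (n + 1) → ZMod p) :=
    { carrier := {v | ∃ h ∈ H, (h : WG (n + 1) p).v = v}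
      zero_mem' := ⟨1, H.one_mem, rfl⟩
      add_mem' := by
        rintro _ _ ⟨g, hg, rfl⟩ ⟨h, hh, rfl⟩
        exact ⟨g * h, H.mul_mem hg hh, hmul g h⟩
      neg_mem' := by
        rintro _ ⟨g, hg, rfl⟩
        refine ⟨g⁻¹, H.inv_mem hg, ?_⟩
        funext i
        rw [Subgroup.coe_inv, WG.inv_v, WG.mem_D.1 g.2]
        rfl }
  obtain ⟨w, hw⟩ : ∃ w, w ∉ H := by
    by_contra hc
    push Not at hc
    exact hH (eq_top_iff.2 fun x _ => hc x)
  have hwS : w.1.v ∉ AddSubgroup.toZModSubmodule p S := by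
    rintro ⟨h, hh, hhw⟩
    have : h = w := by
      apply Subtype.ext
      apply WG.ext' hhw
      rw [WG.mem_D.1 h.2, WG.mem_D.1 w.2]
    exact hw (this ▸ hh)
  obtain ⟨φ, hφw, hφS⟩ := Submodule.exists_le_ker_of_notMem hwS
  let χ : WG.D (n + 1) p →* Multiplicative (ZMod p) :=
    { toFun := fun g => Multiplicative.ofAdd (φ g.1.v)
      map_one' := by
        change Multiplicative.ofAdd (φ 0) = 1
        rw [map_zero]; rfl
      map_mul' := by
        intro g h
        rw [hmul, map_add]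
        rfl }
  refine ⟨χ, fun h hh => ?_, fun h0 => ?_⟩
  · have : φ h.1.v = 0 := hφS ⟨h, hh, rfl⟩
    change Multiplicative.ofAdd (φ h.1.v) = 1
    rw [this]; rfl
  · set η := ζ⁻¹ with hη
    have hηp : IsPrimitiveRoot η (n + 1) := hζ.inv
    have hη1 : η ^ (n + 1) = 1 := hηp.pow_eq_one
    set y : Fin (n + 1) → ZMod p := fun i => φ (Pi.single i 1) with hy
    have h1 : ∀ i : Fin (n + 1), Multiplicative.toAdd (χ (gen (n + 1) p i)) = y i - y (i + 1) := by
      intro i
      change φ (Pi.single i 1 - Pi.single (finRotate (n + 1) i) 1) = _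
      rw [map_sub, finRotate_apply]
    simp only [h1, map_sub, mul_sub, Finset.sum_sub_distrib] at h0
    have h2 : ∑ i : Fin (n + 1), η ^ (i : ℕ) * ZMod.castHom (dvd_refl p) K (y i) =
        (∑ i : Fin (n + 1), η ^ (i : ℕ) * ZMod.castHom (dvd_refl p) K (y (i + 1))) * η := by
      rw [Finset.sum_mul, ← Equiv.sum_comp (Equiv.addRight (1 : Fin (n + 1)))]
      refine Finset.sum_congr rfl fun i _ => ?_
      rw [Equiv.coe_addRight, epow_one hη1]
      ring
    have h3 : ∑ i : Fin (n + 1), η ^ (i : ℕ) * ZMod.castHom (dvd_refl p) K (y i) = 0 := by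
      have h4 : (∑ i : Fin (n + 1), η ^ (i : ℕ) * ZMod.castHom (dvd_refl p) K (y i)) * (η - 1) =
          0 := by
        linear_combination η * h0 - h2
      rcases mul_eq_zero.1 h4 with h5 | h5
      · exact h5
      · exact absurd (sub_eq_zero.1 h5) (hηp.ne_one hl.one_lt)
    have h4 := const_of_root hp hl hirr hηp y h3
    apply hφw
    rw [lin_sum φ w.1.v]
    have h5 : ∀ i, φ (Pi.single i 1) = y 0 := fun i => h4 i 0
    simp only [h5, ← Finset.sum_mul]
    rw [w.1.hv, zero_mul]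

theorem irr_proof : S_IRR := by
  intro p l hp hl hpl hirr S hS v hv hv0 hvs w hws
  have := Fact.mk hp
  obtain ⟨n, rfl⟩ : ∃ n, l = n + 1 := ⟨l - 1, by have := hl.pos; omega⟩
  by_contra hw
  have hwS : w ∉ AddSubgroup.toZModSubmodule p S := hw
  obtain ⟨φ, hφw, hφS⟩ := Submodule.exists_le_ker_of_notMem hwS
  set y : Fin (n + 1) → ZMod p := fun i => φ (Pi.single i 1) with hy
  have hrot : ∀ k : ℕ, ∀ hk : k < n + 1, (fun i => v (i + ⟨k, hk⟩)) ∈ S := by
    intro k
    induction k with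
    | zero =>
      intro hk
      have h0 : (⟨0, hk⟩ : Fin (n + 1)) = 0 := rfl
      simpa [h0] using hv
    | succ k ih =>
      intro hk
      have := hS _ (ih (by omega))
      refine (congrArg (· ∈ S) ?_).mp this
      funext i
      simp only [finRotate_apply]
      congr 1
      rw [add_assoc]
      congr 1
      apply Fin.ext
      rw [Fin.val_add, Fin.val_one']
      change (1 % (n + 1) + k) % (n + 1) = k + 1
      rw [Nat.mod_add_mod, add_comm, Nat.mod_eq_of_lt hk]
  have hc : ∀ k : Fin (n + 1), ∑ i, v (i + k) * y i = 0 := by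
    intro k
    have h1 := hrot (k : ℕ) k.2
    have h2 : φ (fun i => v (i + k)) = 0 := hφS h1
    rw [lin_sum] at h2
    exact h2
  -- a primitive root
  set K := AlgebraicClosure (ZMod p)
  have hlK : ((n + 1 : ℕ) : K) ≠ 0 := by
    intro h
    have := (CharP.cast_eq_zero_iff K p (n + 1)).1 h
    exact hpl ((Nat.prime_dvd_prime_iff_eq hp hl).1 this)
  have : NeZero ((n + 1 : ℕ) : K) := ⟨hlK⟩
  obtain ⟨η, hη⟩ : ∃ η : K, IsPrimitiveRoot η (n + 1) := by
    obtain ⟨η, hη⟩ := IsAlgClosed.exists_root (cyclotomic (n + 1) K) (by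
      rw [degree_cyclotomic]
      have := Nat.totient_pos.2 (Nat.succ_pos n)
      exact_mod_cast this.ne')
    exact ⟨η, isRoot_cyclotomic_iff.1 hη⟩
  have hη1 : η ^ (n + 1) = 1 := hη.pow_eq_one
  have hη0 : η ≠ 0 := hη.ne_zero (Nat.succ_ne_zero n)
  have hηi : IsPrimitiveRoot η⁻¹ (n + 1) := hη.inv
  have key : (∑ i : Fin (n + 1), η⁻¹ ^ (i : ℕ) * ZMod.castHom (dvd_refl p) K (y i)) *
      (∑ j : Fin (n + 1), η ^ (j : ℕ) * ZMod.castHom (dvd_refl p) K (v j)) = 0 := by
    have h1 : ∑ k : Fin (n + 1), η ^ (k : ℕ) *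
        ZMod.castHom (dvd_refl p) K (∑ i, v (i + k) * y i) = 0 := by
      refine Finset.sum_eq_zero fun k _ => ?_
      rw [hc k, map_zero, mul_zero]
    rw [← h1, Finset.sum_mul_sum]
    simp_rw [map_sum, Finset.mul_sum]
    rw [Finset.sum_comm (s := (Finset.univ : Finset (Fin (n + 1))))
      (f := fun k i => η ^ (k : ℕ) * ZMod.castHom (dvd_refl p) K (v (i + k) * y i))]
    refine Finset.sum_congr rfl fun i _ => ?_
    rw [← Equiv.sum_comp (Equiv.addLeft i)]
    refine Finset.sum_congr rfl fun k _ => ?_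
    rw [Equiv.coe_addLeft, epow hη1, map_mul]
    have : η⁻¹ ^ (i : ℕ) * η ^ (i : ℕ) = 1 := by
      rw [← mul_pow, inv_mul_cancel₀ hη0, one_pow]
    linear_combination (η ^ (k : ℕ) * ZMod.castHom (dvd_refl p) K (y i) *
      ZMod.castHom (dvd_refl p) K (v (i + k))) * this
  rcases mul_eq_zero.1 key with h | h
  · have h4 := const_of_root hp hl hirr hηi y h
    apply hφw
    rw [lin_sum φ w]
    have h5 : ∀ i, φ (Pi.single i 1) = y 0 := fun i => h4 i 0
    simp only [h5, ← Finset.sum_mul]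
    rw [hws, zero_mul]
  · have h4 := const_of_root hp hl hirr hη v h
    apply hv0
    have h5 : ∀ i, v i = v 0 := fun i => h4 i 0
    have h6 : ((n + 1 : ℕ) : ZMod p) * v 0 = 0 := by
      rw [← hvs]
      simp_rw [h5]
      simp
    have h7 : ((n + 1 : ℕ) : ZMod p) ≠ 0 := by
      intro h
      have := (ZMod.natCast_eq_zero_iff (n + 1) p).1 h
      exact hpl ((Nat.prime_dvd_prime_iff_eq hp hl).1 this)
    funext i
    rw [h5 i]
    exact (mul_eq_zero.1 h6).resolve_left h7

end Pool.Agent.P8H53.ZE
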